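import Mathlib

/-!
# Cops and robbers: a non-bipartite graph whose fully active cop number exceeds its cop number

In the passive game each cop and the robber may move to an adjacent vertex or stay; in the fully
active game nobody may stay. The question (Gromovikov, Kinnersley, Seamone) is whether
`c_a(G) ≤ c(G)` for every connected non-bipartite graph. We give a connected non-bipartite graph
with `14` vertices and `23` edges on which two cops win the passive game, while two cops do not win
the fully active game: so `c(G) ≤ 2 < 3 ≤ c_a(G)`, and the answer is no.

The graph was found by a computer search. The proof uses two tables. The first one gives for all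
positions `(a, b, r)` of the two cops and the robber, with the cops to move, a bound for the number
of moves which the cops need in the passive game. The second one is the set of the positions from
which the robber escapes forever in the fully active game; it contains a position `(a, b, r)` for
all `a`, `b`.
-/

set_option autoImplicit false

namespace Pool.Agent.Results.MP_bb83f1_co.NonBipartiteCounterexample

/-- The legal moves of a single player: to an adjacent vertex or, in the passive game
(`active = false`), staying in place. -/
def Move {V : Type} (G : SimpleGraph V) (active : Bool) (x y : V) : Prop :=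
  G.Adj x y ∨ (active = false ∧ x = y)

/-- The cops on the vertices `c i`, who are to move, can force the capture of the robber on the
vertex `r`. -/
inductive CopsWin {V : Type} (G : SimpleGraph V) (active : Bool) {k : ℕ} :
    (Fin k → V) → V → Prop
  /-- a cop is on the vertex of the robber -/
  | caught (c : Fin k → V) (i : Fin k) : CopsWin G active c (c i)
  /-- the cops move, one of them to the vertex of the robber -/
  | capture (c c' : Fin k → V) (hc : ∀ i, Move G active (c i) (c' i)) (i : Fin k) :
      CopsWin G active c (c' i)
  /-- the cops move, and they can force the capture after all moves of the robber -/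
  | move (c c' : Fin k → V) (r : V) (hc : ∀ i, Move G active (c i) (c' i))
      (h : ∀ r', Move G active r r' → CopsWin G active c' r') : CopsWin G active c r

/-- `k` cops have a winning strategy: they choose their vertices, then the robber chooses his. -/
def Wins {V : Type} (G : SimpleGraph V) (active : Bool) (k : ℕ) : Prop :=
  ∃ c : Fin k → V, ∀ r : V, CopsWin G active c r

/-- the cop number `c(G)` -/
noncomputable def copNumber {V : Type} (G : SimpleGraph V) : ℕ := sInf {k | Wins G false k}

/-- the fully active cop number `c_a(G)` -/
noncomputable def activeCopNumber {V : Type} (G : SimpleGraph V) : ℕ := sInf {k | Wins G true k}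

/-! ### One more cop -/

theorem CopsWin.cons {V : Type} {G : SimpleGraph V} {active : Bool}
    (f : V → V) (hf : ∀ v, G.Adj v (f v)) {k : ℕ} {c : Fin k → V} {r : V}
    (h : CopsWin G active c r) : ∀ x : V, CopsWin G active (Fin.cons x c : Fin (k + 1) → V) r := by
  induction h with
  | caught c i =>
    intro x
    have := CopsWin.caught (G := G) (active := active) (Fin.cons x c : Fin (k + 1) → V) i.succ
    simpa using this
  | capture c c' hc i =>
    intro x
    have := CopsWin.capture (G := G) (active := active) (Fin.cons x c : Fin (k + 1) → V)
      (Fin.cons (f x) c' : Fin (k + 1) → V) (by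
        intro j
        refine Fin.cases ?_ (fun j => ?_) j
        · exact Or.inl (by simpa using hf x)
        · simpa using hc j) i.succ
    simpa using this
  | move c c' r hc h ih =>
    intro x
    refine CopsWin.move _ (Fin.cons (f x) c' : Fin (k + 1) → V) r (by
        intro j
        refine Fin.cases ?_ (fun j => ?_) j
        · exact Or.inl (by simpa using hf x)
        · simpa using hc j) (fun r' hr' => ih r' hr' (f x))

theorem Wins.mono {V : Type} {G : SimpleGraph V} {active : Bool} (f : V → V)
    (hf : ∀ v, G.Adj v (f v)) [Nonempty V] {k l : ℕ} (hkl : k ≤ l) (h : Wins G active k) :
    Wins G active l := by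
  induction l, hkl using Nat.le_induction with
  | base => exact h
  | succ l _ ih =>
    obtain ⟨c, hc⟩ := ih
    exact ⟨Fin.cons (Classical.arbitrary V) c, fun r => (hc r).cons f hf _⟩

/-! ### The graph -/

/-- the lists of neighbours -/
def nbrs : List (List ℕ) :=
  [[2, 3, 7, 9, 10],
   [5, 6, 7, 10],
   [0, 4, 13],
   [0, 5, 12],
   [2, 6, 9, 12],
   [1, 3, 13],
   [1, 4, 11],
   [0, 1, 8],
   [7, 11, 12],
   [0, 4, 10],
   [0, 1, 9],
   [6, 8, 13],
   [3, 4, 8],
   [2, 5, 11]]

/-- the neighbours of a vertex -/
def nb (v : ℕ) : List ℕ := nbrs.getD v []

/-- the graph -/
def gr : SimpleGraph (Fin 14) where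
  Adj a b := (nb a).contains b.1 = true
  symm := ⟨by decide⟩
  loopless := ⟨by decide⟩

theorem mem_of_adj {a b : Fin 14} (h : gr.Adj a b) : b.1 ∈ nb a := by
  have h' : (nb a).contains b.1 = true := h
  simpa using h'

theorem adj_of_mem {a b : Fin 14} (h : b.1 ∈ nb a) : gr.Adj a b := by
  show (nb a).contains b.1 = true
  simpa using h

/-- the table of the passive game: four bits for each position -/
def tabT : ℕ := 402114173475408750673218625062873018766990527000248204200701344648493953832570508302525614670484901498116728518989230980273861232936662634646185194749474558937944741572502472705716176966995390511565611630621087609749370116957957039509600077584816458274143614008230283647260736322223166889025512020509807482541685550206365459056064992612771671419032623141690612568576161557181649955803676625838983749756246325083627700834618075770436577278752361385173204245572858888041951653338882757809419511363891235436358959013342854647293605012443434540060848579131031804147582191866039315791754625912334252116786416977217785203038059790717213350765982842414382496103966776649852998705330866732510000479535516245015915918277283417775753061470119073565450347954705083473891804160268095369832220365442477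08550634774347557314049471870418455929864409700053669912945576155545129550187004897862241746870857727230561950934626317872443674415164080729329770993834242375101303331788332120016754681684823349299147535550992162987781940928685380373981215615539642996832030599496821585081375559830179257034210375626524449951675086201832861112120748532498777468353478481670539580548785349537848544975593111070057374640779395053146014240050303157155208758608715708431770239435927351597929332997433165549780855245331170163655794034181329384782056495146120175011582714183548941250969625131606782259305156182265083853367444526238625201687459839575958272613344447122127730204666816036421329017750876184025725826552202663424269679362776430492353222997307127068105506098106425014792558535042405631983187927065330120562699695825188260661199279984634509118091590072949840577437252415510824003597355836101286053077543568745692389981192663145012703957016028059292054008518486484898542573489800658011588287963900055689428001466255087366852610189319391968244223064740068459188822077465494965641467235738116981936882305997134907712762943565614811869072830475039716782191724268520510479659290995301746852491545295014697233788309187173775608592784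8621305993437440135411432111541532871436502597555491832186256387644293560104644309803964850158676899271646037993149345579362322400734919372285544353497609978384901066727854893939432445548221296317618556137455438410055905968241234288268781487285003092874241059489881115314470735255646945369805148829637020611295062655610025759286968801183462813426492462694646708809701542411233774006979392603167906968613678997999405235059673746409255174651357012898261831381633695986194690052016288052178224854435206020092755000630520099099614756549059140022346882265697143756023618247213707848940812946363194922129997401624429170404204857485961096234272170035284051001182022188729612934212699534372367028245697297292937735123074570251689327102273252064669571611793205470561036318421382074570945020257300584258207208291148066081355790155184679052444093649024595386018359821482223931600294691694707050544144006599792640766484345283425042112229877912839662838866597142428550061904016886323767930951847169146961194126538386269784240784365766311616468054619050198105394289814404735628314402928488870686783675896235472797725770277654888533953606766183454527350932189874489959166389664838022774307743153957647896236724909713997231768513642942641951517583446227953088002427343968225758576893281744143295166719327812502229392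

/-- the table of the fully active game: one bit for each position -/
def tabS : ℕ := 2964192843297861605776426452123197075358056108306431685230238597338700311627915288241019892675802030248684236666174508852150206081791337300119638453072925591948056864539955206402673744152207210429265430323066897826743056137545746229829119323831637287823120441172841748783011958165196412561483356532281252254640077953356372248999958800271270183058473682006748930020389691253184258120221721269210494206946182198819978505108044705511271190417120390744131520494386093245393128924390221356936201720331234712072438738462907212856965293960979820480189714685033778807523556356343634383256290515101074508576907115581458458680944431801312769352779806002317003773578720464443410430915232439424253975074422749037053940735746269673741889457322801327081778197134858344883958451038566693110888858806317576781629504880924102542394027390810482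

/-- the number of moves -/
def T (a b r : ℕ) : ℕ := (tabT >>> (4 * (196 * a + 14 * b + r))) % 16

/-- the positions in which the robber escapes -/
def S (a b r : ℕ) : Bool := (tabS >>> (196 * a + 14 * b + r)) % 2 == 1

/-- the check for the passive game -/
def okP (a b r : ℕ) : Bool :=
  a == r || b == r || (a :: nb a).any fun x => (b :: nb b).any fun y =>
    x == r || y == r || (r :: nb r).all fun s => Nat.blt (T x y s) (T a b r)

/-- the check for the fully active game -/
def okA (a b r : ℕ) : Bool :=
  !(S a b r) || (a != r && b != r && (nb a).all fun x => (nb b).all fun y =>
    x != r && y != r && (nb r).any fun s => S x y s)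

/-- all positions -/
def allPos (p : ℕ → ℕ → ℕ → Bool) : Bool :=
  (List.range 14).all fun a => (List.range 14).all fun b => (List.range 14).all fun r => p a b r

theorem of_allPos {p : ℕ → ℕ → ℕ → Bool} (h : allPos p = true) (a b r : Fin 14) :
    p a b r = true := by
  simp only [allPos, List.all_eq_true, List.mem_range] at h
  exact h a a.2 b b.2 r r.2

set_option maxRecDepth 100000 in
theorem checkP : allPos okP = true := by decide +kernel

set_option maxRecDepth 100000 in
theorem checkA : allPos okA = true := by decide +kernel

set_option maxRecDepth 100000 in
theorem startA : ((List.range 14).all fun a => (List.range 14).all fun b =>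
    (List.range 14).any fun r => S a b r) = true := by decide +kernel

set_option maxRecDepth 100000 in
theorem nb_lt : ((List.range 14).all fun a => (nb a).all fun b => Nat.blt b 14) = true := by
  decide +kernel

theorem lt_of_mem {a : Fin 14} {b : ℕ} (h : b ∈ nb a) : b < 14 := by
  have h1 := nb_lt
  simp only [List.all_eq_true, List.mem_range] at h1
  exact Nat.le_of_ble_eq_true (h1 a a.2 b h)

/-! ### The passive game -/

theorem passive (m : ℕ) : ∀ a b r : Fin 14, T a b r ≤ m → CopsWin gr false ![a, b] r := by
  induction m using Nat.strong_induction_on with
  | _ m ih =>
    intro a b r hm
    have h := of_allPos checkP a b r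
    simp only [okP, Bool.or_eq_true, beq_iff_eq, List.any_eq_true, List.all_eq_true] at h
    rcases h with (h | h) | ⟨x, hx, y, hy, h⟩
    · have := CopsWin.caught (G := gr) (active := false) ![a, b] 0
      rwa [show (![a, b] : Fin 2 → Fin 14) 0 = r from Fin.ext h] at this
    · have := CopsWin.caught (G := gr) (active := false) ![a, b] 1
      rwa [show (![a, b] : Fin 2 → Fin 14) 1 = r from Fin.ext h] at this
    · have hx' : x < 14 := by
        rcases List.mem_cons.1 hx with rfl | hx
        · exact a.2
        · exact lt_of_mem hx
      have hy' : y < 14 := by
        rcases List.mem_cons.1 hy with rfl | hy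
        · exact b.2
        · exact lt_of_mem hy
      have hmx : Move gr false a ⟨x, hx'⟩ := by
        rcases List.mem_cons.1 hx with h | hx
        · exact Or.inr ⟨rfl, Fin.ext h.symm⟩
        · exact Or.inl (adj_of_mem hx)
      have hmy : Move gr false b ⟨y, hy'⟩ := by
        rcases List.mem_cons.1 hy with h | hy
        · exact Or.inr ⟨rfl, Fin.ext h.symm⟩
        · exact Or.inl (adj_of_mem hy)
      have hmv : ∀ i : Fin 2, Move gr false ((![a, b] : Fin 2 → Fin 14) i)
          ((![⟨x, hx'⟩, ⟨y, hy'⟩] : Fin 2 → Fin 14) i) := by
        intro i
        fin_cases i
        · exact hmx
        · exact hmy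
      rcases h with (h | h) | h
      · have := CopsWin.capture (G := gr) (active := false) ![a, b] ![⟨x, hx'⟩, ⟨y, hy'⟩] hmv 0
        rwa [show (![⟨x, hx'⟩, ⟨y, hy'⟩] : Fin 2 → Fin 14) 0 = r from Fin.ext h] at this
      · have := CopsWin.capture (G := gr) (active := false) ![a, b] ![⟨x, hx'⟩, ⟨y, hy'⟩] hmv 1
        rwa [show (![⟨x, hx'⟩, ⟨y, hy'⟩] : Fin 2 → Fin 14) 1 = r from Fin.ext h] at this
      · refine CopsWin.move _ ![⟨x, hx'⟩, ⟨y, hy'⟩] r hmv (fun s hs => ?_)
        have hs' : s.1 ∈ r.1 :: nb r := by
          rcases hs with hs | ⟨_, hs⟩
          · exact List.mem_cons_of_mem _ (mem_of_adj hs)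
          · rw [hs]
            exact List.mem_cons_self
        have hlt : T x y s < T a b r := Nat.le_of_ble_eq_true (h s hs')
        exact ih (T x y s) (lt_of_lt_of_le hlt hm) ⟨x, hx'⟩ ⟨y, hy'⟩ s le_rfl

theorem wins_passive : Wins gr false 2 :=
  ⟨![0, 0], fun r => passive (T 0 0 r) 0 0 r le_rfl⟩

/-! ### The fully active game -/

theorem active {c : Fin 2 → Fin 14} {r : Fin 14} (h : CopsWin gr true c r) :
    S (c 0) (c 1) r = false := by
  have key : ∀ (c : Fin 2 → Fin 14) (r : Fin 14), S (c 0) (c 1) r = true →
      ((c 0).1 ≠ r.1 ∧ (c 1).1 ≠ r.1) ∧ ∀ c' : Fin 2 → Fin 14, (∀ i, Move gr true (c i) (c' i)) →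
        ((c' 0).1 ≠ r.1 ∧ (c' 1).1 ≠ r.1) ∧ ∃ s : Fin 14, gr.Adj r s ∧
          S (c' 0) (c' 1) s = true := by
    intro c r hS
    have h := of_allPos checkA (c 0) (c 1) r
    simp only [okA, hS, Bool.not_true, Bool.false_or, Bool.and_eq_true, bne_iff_ne,
      List.all_eq_true, List.any_eq_true] at h
    refine ⟨h.1, fun c' hc' => ?_⟩
    have hm : ∀ i, (c' i).1 ∈ nb (c i) := by
      intro i
      rcases hc' i with h' | ⟨h', _⟩
      · exact mem_of_adj h'
      · exact absurd h' (by decide)
    obtain ⟨h1, s, hs, hs'⟩ := h.2 _ (hm 0) _ (hm 1)
    exact ⟨h1, ⟨s, lt_of_mem hs⟩, adj_of_mem hs, hs'⟩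
  induction h with
  | caught c i =>
    by_contra hc
    have h := (key c (c i) (by simpa using hc)).1
    fin_cases i
    · exact h.1 rfl
    · exact h.2 rfl
  | capture c c' hc i =>
    by_contra hS
    have h := ((key c (c' i) (by simpa using hS)).2 c' hc).1
    fin_cases i
    · exact h.1 rfl
    · exact h.2 rfl
  | move c c' r hc h ih =>
    by_contra hS
    obtain ⟨s, hs, hs'⟩ := ((key c r (by simpa using hS)).2 c' hc).2
    rw [ih s (Or.inl hs)] at hs'
    exact absurd hs' (by decide)

theorem not_wins_active : ¬ Wins gr true 2 := by
  rintro ⟨c, hc⟩
  have h := startA
  simp only [List.all_eq_true, List.any_eq_true, List.mem_range] at h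
  obtain ⟨r, hr, hr'⟩ := h _ (c 0).2 _ (c 1).2
  have := active (hc ⟨r, hr⟩)
  rw [this] at hr'
  exact absurd hr' (by decide)

/-- a neighbour of each vertex -/
def next (v : Fin 14) : Fin 14 := ![2, 5, 0, 0, 2, 1, 1, 0, 7, 0, 0, 6, 3, 2] v

theorem adj_next : ∀ v, gr.Adj v (next v) := by
  intro v
  fin_cases v <;> exact adj_of_mem (by decide)

/-- the vertex before `v` on a path to `0` -/
def par (v : Fin 14) : Fin 14 := ![0, 7, 0, 0, 2, 3, 4, 0, 7, 0, 0, 8, 3, 2] v

/-- the distance from `0` -/
def dep (v : Fin 14) : ℕ := (![0, 2, 1, 1, 2, 2, 3, 1, 2, 1, 1, 3, 2, 2] : Fin 14 → ℕ) v

theorem par_spec : ∀ v : Fin 14, v ≠ 0 → (v.1 ∈ nb (par v)) ∧ dep (par v) < dep v := by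
  decide

theorem reach (n : ℕ) : ∀ v : Fin 14, dep v ≤ n → gr.Reachable 0 v := by
  induction n using Nat.strong_induction_on with
  | _ n ih =>
    intro v hv
    by_cases h0 : v = 0
    · rw [h0]
    · obtain ⟨h1, h2⟩ := par_spec v h0
      exact (ih _ (lt_of_lt_of_le h2 hv) (par v) le_rfl).trans
        (SimpleGraph.Adj.reachable (adj_of_mem h1))

theorem connected : gr.Connected := by
  haveI : Nonempty (Fin 14) := ⟨0⟩
  exact ⟨fun u v => ((reach _ u le_rfl).symm).trans (reach _ v le_rfl)⟩

theorem not_colorable : ¬ gr.Colorable 2 := by
  rintro ⟨C⟩
  have h1 : C 0 ≠ C 9 := C.valid (adj_of_mem (by decide))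
  have h2 : C 0 ≠ C 10 := C.valid (adj_of_mem (by decide))
  have h3 : C 9 ≠ C 10 := C.valid (adj_of_mem (by decide))
  omega

/-- **There is a finite connected non-bipartite graph `G` with `c(G) ≤ 2` and `c_a(G) ≥ 3`.** -/
theorem result : ∃ (n : ℕ) (G : SimpleGraph (Fin n)), G.Connected ∧ ¬ G.Colorable 2 ∧
    copNumber G ≤ 2 ∧ 3 ≤ activeCopNumber G := by
  refine ⟨14, gr, connected, not_colorable, Nat.sInf_le wins_passive, ?_⟩
  have hne : {k | Wins gr true k}.Nonempty := ⟨14, id, fun r => CopsWin.caught id r⟩
  have hmem : Wins gr true (activeCopNumber gr) := Nat.sInf_mem hne
  by_contra hlt
  haveI : Nonempty (Fin 14) := ⟨0⟩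
  exact not_wins_active (Wins.mono next adj_next (by omega) hmem)

end Pool.Agent.Results.MP_bb83f1_co.NonBipartiteCounterexample
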